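import Pool.Agent.Helper720.HKBase3

set_option autoImplicit false

namespace Pool.Agent.Results.MP_f00780_ag.DescendingHK

open Filter Topology IsLocalRing

universe u

/-- The Frobenius power `I^{[q]}`: the ideal generated by the `q`-th powers of the elements
of `I`. -/
def FrobeniusPower {R : Type u} [CommRing R] (I : Ideal R) (q : ℕ) : Ideal R :=
  Ideal.span {y : R | ∃ x ∈ I, y = x ^ q}

/-- The local ring `R`, of dimension `d` in characteristic `p`, has Hilbert–Kunz multiplicity
`v`: the lengths of `R / 𝔪^{[p^e]}` are finite, and divided by `p^{ed}` they tend to `v`. -/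
def HasHKMultiplicity (p d : ℕ) (R : Type u) [CommRing R] [IsLocalRing R] (v : ℝ) : Prop :=
  ∃ l : ℕ → ℕ,
    (∀ e, Module.length R (R ⧸ FrobeniusPower (maximalIdeal R) (p ^ e)) = (l e : ℕ∞)) ∧
    Tendsto (fun e => (l e : ℝ) / (p : ℝ) ^ (e * d)) atTop (𝓝 v)

/-- `v` is the Hilbert–Kunz multiplicity of a singular (that is, not regular) local ring of
dimension `d` which is the localization of a finitely generated `F`-algebra at a maximal
ideal. -/
def IsSingularHKValue (F : Type u) [Field F] (p d : ℕ) (v : ℝ) : Prop :=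
  ∃ (A : Type u) (_ : CommRing A) (_ : Algebra F A) (M : Ideal A) (_ : M.IsMaximal),
    Algebra.FiniteType F A ∧
    ringKrullDim (Localization.AtPrime M) = d ∧
    ¬ IsRegularLocalRing (Localization.AtPrime M) ∧
    HasHKMultiplicity p d (Localization.AtPrime M) v

lemma frobeniusPower_eq {R : Type u} [CommRing R] (I : Ideal R) (q : ℕ) :
    FrobeniusPower I q = Pool.Agent.Helper720.HK.frobPow I q := by
  unfold FrobeniusPower Pool.Agent.Helper720.HK.frobPow
  congr 1
  ext y
  constructor
  · rintro ⟨x, hx, rfl⟩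
    exact ⟨x, hx, rfl⟩
  · rintro ⟨x, hx, rfl⟩
    exact ⟨x, hx, rfl⟩

open Pool.Agent.Helper720.HK in
lemma isSingularHKValue (p : ℕ) [Fact p.Prime] (F K : Type u) [Field F] [Field K] [Finite K]
    [CharP K p] [Algebra F K] (lam : K) (r : ℕ) (v : ℝ)
    (h : Tendsto (fun e => ((p : ℝ) + 1) * UU p lam e) atTop (𝓝 v)) :
    IsSingularHKValue F p (2 + r) v := by
  have hp : 2 ≤ p := (Fact.out : p.Prime).two_le
  have hp0 : (0 : ℝ) < p := by exact_mod_cast (by omega : 0 < p)
  obtain ⟨A, _, _, aug, hA⟩ := good_all p lam r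
  let _ : Algebra F A := ((algebraMap K A).comp (algebraMap F K)).toAlgebra
  have : IsScalarTower F K A := IsScalarTower.of_algebraMap_eq' rfl
  have hFK : Module.Finite F K := inferInstance
  have hft : Algebra.FiniteType F A :=
    Algebra.FiniteType.trans (S := K) inferInstance hA.ft
  have hftK := hA.ft
  have hnoeth : IsNoetherianRing A := Algebra.FiniteType.isNoetherianRing K A
  obtain ⟨φ, h1, h2⟩ := hA.tan
  refine ⟨A, inferInstance, inferInstance, RingHom.ker aug, inferInstance, hft,
    ringKrullDim_loc aug hA.ht, not_regular aug hA.ht φ h1 h2,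
    fun e => (p ^ e) ^ r * cB p lam e, ?_, ?_⟩
  · intro e
    rw [frobeniusPower_eq]
    have h3 := length_frobPow aug (p ^ e) (hA.fin e)
    rw [hA.len e] at h3
    exact h3
  · refine (tendsto_cB p lam h).congr fun e => ?_
    have hpe : (0 : ℝ) < (p : ℝ) ^ e := by positivity
    have e1 : (p : ℝ) ^ (e * (2 + r)) = ((p : ℝ) ^ e) ^ r * ((p : ℝ) ^ e) ^ 2 := by
      rw [← pow_add, ← pow_mul, add_comm r 2]
    rw [e1]
    push_cast
    rw [mul_div_mul_left _ _ (by positivity)]

/-- For every prime `p`, every finite field `F` of characteristic `p` and every `d ≥ 2` there is a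
strictly decreasing sequence of Hilbert–Kunz multiplicities of singular `d`-dimensional local
rings essentially of finite type over `F`; it converges to `4p/(p+1)`. -/
theorem result (p : ℕ) [Fact p.Prime] (F : Type u) [Field F] [Finite F] [CharP F p]
    (d : ℕ) (hd : 2 ≤ d) :
    ∃ a : ℕ → ℝ, StrictAnti a ∧ Tendsto a atTop (𝓝 (4 * p / (p + 1))) ∧
      ∀ n, IsSingularHKValue F p d (a n) := by
  obtain ⟨a, ha, hlim, hval⟩ := Pool.Agent.Helper720.HK.exists_value_seq p F
  obtain ⟨r, rfl⟩ := Nat.exists_eq_add_of_le hd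
  refine ⟨a, ha, hlim, fun n => ?_⟩
  obtain ⟨K, _, _, _, _, lam, h⟩ := hval n
  exact isSingularHKValue p F K lam r (a n) h

end Pool.Agent.Results.MP_f00780_ag.DescendingHK
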